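import Mathlib

/-! Fischer decomposition of real polynomials -/

namespace NLSn.A97

open MvPolynomial

noncomputable section

variable {n : ℕ}

/-- Laplacian on polynomials -/
def L (P : MvPolynomial (Fin n) ℝ) : MvPolynomial (Fin n) ℝ := ∑ i, pderiv i (pderiv i P)

/-- the squared radius -/
def R2 (n : ℕ) : MvPolynomial (Fin n) ℝ := ∑ i, X i ^ 2

lemma L_add (P Q : MvPolynomial (Fin n) ℝ) : L (P + Q) = L P + L Q := by
  simp [L, Finset.sum_add_distrib]

lemma L_sub (P Q : MvPolynomial (Fin n) ℝ) : L (P - Q) = L P - L Q := by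
  simp [L, Finset.sum_sub_distrib]

lemma L_C_mul (c : ℝ) (P : MvPolynomial (Fin n) ℝ) : L (C c * P) = C c * L P := by
  simp [L, Finset.mul_sum]

lemma pderiv_R2 (i : Fin n) : pderiv i (R2 n) = 2 * X i := by
  classical
  rw [R2, map_sum, Finset.sum_eq_single i]
  · rw [pderiv_pow, pderiv_X_self]; simp
  · intro j _ hj
    rw [pderiv_pow, pderiv_X_of_ne hj]; simp
  · intro h; exact absurd (Finset.mem_univ i) h

lemma L_R2_mul (P : MvPolynomial (Fin n) ℝ) :
    L (R2 n * P) = 2 * (n : MvPolynomial (Fin n) ℝ) * P + 4 * (∑ i, X i * pderiv i P) + R2 n * L P := by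
  have h : ∀ i : Fin n, pderiv i (pderiv i (R2 n * P)) =
      2 * P + 4 * (X i * pderiv i P) + R2 n * pderiv i (pderiv i P) := by
    intro i
    rw [pderiv_mul, map_add, pderiv_mul, pderiv_mul, pderiv_R2, pderiv_mul, pderiv_X_self]
    have h2 : pderiv i (2 : MvPolynomial (Fin n) ℝ) = 0 := by
      have : (2 : MvPolynomial (Fin n) ℝ) = C 2 := (map_ofNat C 2).symm
      rw [this, pderiv_C]
    rw [h2]; ring
  unfold L
  simp_rw [h]
  rw [Finset.sum_add_distrib, Finset.sum_add_distrib, Finset.mul_sum, Finset.mul_sum]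
  simp
  ring

lemma L_R2_mul_homog {m : ℕ} {Q : MvPolynomial (Fin n) ℝ} (hQ : Q.IsHomogeneous m) :
    L (R2 n * Q) = C (2 * (n : ℝ) + 4 * m) * Q + R2 n * L Q := by
  have h2 : (C 2 : MvPolynomial (Fin n) ℝ) = 2 := map_ofNat C 2
  have h4 : (C 4 : MvPolynomial (Fin n) ℝ) = 4 := map_ofNat C 4
  rw [L_R2_mul, hQ.sum_X_mul_pderiv]
  simp [h2, h4]
  ring

lemma L_homog {m : ℕ} {P : MvPolynomial (Fin n) ℝ} (hP : P.IsHomogeneous m) :
    (L P).IsHomogeneous (m - 2) := by
  unfold L
  apply MvPolynomial.IsHomogeneous.sum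
  intro i _
  have := (hP.pderiv (i := i)).pderiv (i := i)
  simpa [Nat.sub_sub] using this

lemma L_eq_zero_of_lt_two {m : ℕ} (hm : m < 2) {P : MvPolynomial (Fin n) ℝ}
    (hP : P.IsHomogeneous m) : L P = 0 := by
  unfold L
  apply Finset.sum_eq_zero
  intro i _
  have h := hP.pderiv (i := i)
  have hm0 : m - 1 = 0 := by omega
  rw [hm0, ← totalDegree_zero_iff_isHomogeneous, totalDegree_eq_zero_iff_eq_C] at h
  rw [h, pderiv_C]

lemma R2_homog : (R2 n).IsHomogeneous 2 := by
  unfold R2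
  apply MvPolynomial.IsHomogeneous.sum
  intro i _
  exact isHomogeneous_X_pow i 2

lemma solve (m : ℕ) : ∀ c : ℝ, 0 < c → ∀ P : MvPolynomial (Fin n) ℝ, P.IsHomogeneous m →
    ∃ Q : MvPolynomial (Fin n) ℝ, Q.IsHomogeneous m ∧ C c * Q + R2 n * L Q = P := by
  induction m using Nat.strong_induction_on with
  | _ m ih =>
    intro c hc P hP
    have hcc : (C c : MvPolynomial (Fin n) ℝ) * C c⁻¹ = 1 := by
      rw [← C_mul, mul_inv_cancel₀ hc.ne', C_1]
    rcases lt_or_ge m 2 with hm | hm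
    · refine ⟨C c⁻¹ * P, hP.C_mul _, ?_⟩
      rw [L_C_mul, L_eq_zero_of_lt_two hm hP, ← mul_assoc, hcc]; ring
    · obtain ⟨k, rfl⟩ : ∃ k, m = k + 2 := ⟨m - 2, by omega⟩
      have hLP : (L P).IsHomogeneous k := by simpa using L_homog hP
      obtain ⟨S, hS, hSe⟩ := ih k (by omega) (c + (2 * (n : ℝ) + 4 * k)) (by positivity) (L P) hLP
      have hRS : (R2 n * S).IsHomogeneous (k + 2) := by
        have := R2_homog.mul hS
        rwa [add_comm] at this
      refine ⟨C c⁻¹ * (P - R2 n * S), (hP.sub hRS).C_mul _, ?_⟩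
      have h1 : L (P - R2 n * S) = C c * S := by
        rw [L_sub, L_R2_mul_homog hS, ← hSe, C_add]; ring
      rw [L_C_mul, h1]
      calc C c * (C c⁻¹ * (P - R2 n * S)) + R2 n * (C c⁻¹ * (C c * S))
          = (C c * C c⁻¹) * (P - R2 n * S) + (C c * C c⁻¹) * (R2 n * S) := by ring
        _ = P := by rw [hcc]; ring

lemma decomp (hn : 1 ≤ n) {d : ℕ} {P : MvPolynomial (Fin n) ℝ} (hP : P.IsHomogeneous (d + 2)) :
    ∃ Q : MvPolynomial (Fin n) ℝ, Q.IsHomogeneous d ∧ L (P - R2 n * Q) = 0 := by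
  have hLP : (L P).IsHomogeneous d := by simpa using L_homog hP
  have hn' : (1 : ℝ) ≤ n := by exact_mod_cast hn
  obtain ⟨Q, hQ, hQe⟩ := solve d (2 * (n : ℝ) + 4 * d) (by positivity) (L P) hLP
  refine ⟨Q, hQ, ?_⟩
  rw [L_sub, L_R2_mul_homog hQ, hQe, sub_self]

/-- Induction principle: a property of polynomials closed under addition and under
multiplication by the squared radius, which holds for the harmonic homogeneous ones,
holds for all. -/
theorem poly_induction (hn : 1 ≤ n) (Good : MvPolynomial (Fin n) ℝ → Prop)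
    (hadd : ∀ P Q, Good P → Good Q → Good (P + Q))
    (hR : ∀ P, Good P → Good (R2 n * P))
    (hharm : ∀ (d : ℕ) P, P.IsHomogeneous d → L P = 0 → Good P) (P : MvPolynomial (Fin n) ℝ) :
    Good P := by
  have key : ∀ d : ℕ, ∀ P : MvPolynomial (Fin n) ℝ, P.IsHomogeneous d → Good P := by
    intro d
    induction d using Nat.strong_induction_on with
    | _ d ih =>
      intro P hP
      rcases lt_or_ge d 2 with hd | hd
      · exact hharm d P hP (L_eq_zero_of_lt_two hd hP)
      · obtain ⟨k, rfl⟩ : ∃ k, d = k + 2 := ⟨d - 2, by omega⟩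
        obtain ⟨Q, hQ, hLQ⟩ := decomp hn hP
        have hRS : (R2 n * Q).IsHomogeneous (k + 2) := by
          have := R2_homog.mul hQ
          rwa [add_comm] at this
        have h1 := hharm (k + 2) (P - R2 n * Q) (hP.sub hRS) hLQ
        have h2 := hR Q (ih k (by omega) Q hQ)
        have h3 := hadd _ _ h1 h2
        rwa [sub_add_cancel] at h3
  have h0 : Good 0 := hharm 0 0 (isHomogeneous_zero _ _ _) (by simp [L])
  rw [← sum_homogeneousComponent P]
  apply Finset.sum_induction _ Good hadd h0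
  intro i _
  exact key i _ (homogeneousComponent_isHomogeneous i P)

end

end NLSn.A97
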