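import Mathlib
import Pool.Agent.Lib52.NLSn.Defs
import Pool.Agent.Lib_helper97.NLSn.Fischer

/-! Evaluation of polynomials on Euclidean space: derivatives, homogeneity -/

namespace NLSn.A97

open MvPolynomial

noncomputable section

variable {n : ℕ}

/-- evaluation of a polynomial at a point of Euclidean space -/
def ev (P : MvPolynomial (Fin n) ℝ) (x : E n) : ℝ := eval (fun i => x i) P

lemma hasFDerivAt_ev (P : MvPolynomial (Fin n) ℝ) (x : E n) :
    HasFDerivAt (ev P) (∑ i, ev (pderiv i P) x • (EuclideanSpace.proj i : E n →L[ℝ] ℝ)) x := by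
  induction P using MvPolynomial.induction_on with
  | C a =>
    have : (ev (C a) : E n → ℝ) = fun _ => a := by ext y; simp [ev]
    rw [this]
    have h0 : (∑ i, ev (pderiv i (C a)) x • (EuclideanSpace.proj i : E n →L[ℝ] ℝ)) = 0 := by
      apply Finset.sum_eq_zero
      intro i _
      rw [pderiv_C]; simp [ev]
    rw [h0]
    exact hasFDerivAt_const a x
  | add p q hp hq =>
    have h1 : (ev (p + q) : E n → ℝ) = ev p + ev q := by ext y; simp [ev]
    have h2 : (∑ i, ev (pderiv i (p + q)) x • (EuclideanSpace.proj i : E n →L[ℝ] ℝ)) =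
        (∑ i, ev (pderiv i p) x • (EuclideanSpace.proj i : E n →L[ℝ] ℝ)) +
        (∑ i, ev (pderiv i q) x • (EuclideanSpace.proj i : E n →L[ℝ] ℝ)) := by
      simp [ev, add_smul, Finset.sum_add_distrib]
    rw [h1, h2]
    exact hp.add hq
  | mul_X p i hp =>
    have h1 : HasFDerivAt (fun y : E n => y i) (EuclideanSpace.proj i : E n →L[ℝ] ℝ) x :=
      (EuclideanSpace.proj i : E n →L[ℝ] ℝ).hasFDerivAt
    have h0 := hp.mul h1
    have h3 : (ev (p * X i) : E n → ℝ) = ev p * (fun y : E n => y i) := by ext y; simp [ev]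
    have h2 : (∑ j, ev (pderiv j (p * X i)) x • (EuclideanSpace.proj j : E n →L[ℝ] ℝ)) =
        ev p x • (EuclideanSpace.proj i : E n →L[ℝ] ℝ) +
        x i • (∑ j, ev (pderiv j p) x • (EuclideanSpace.proj j : E n →L[ℝ] ℝ)) := by
      classical
      have h4 : ∀ j : Fin n, ev (pderiv j (p * X i)) x • (EuclideanSpace.proj j : E n →L[ℝ] ℝ) =
          (if j = i then ev p x • (EuclideanSpace.proj i : E n →L[ℝ] ℝ) else 0) +
          x i • ev (pderiv j p) x • (EuclideanSpace.proj j : E n →L[ℝ] ℝ) := by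
        intro j
        rw [pderiv_mul, pderiv_X, ← smul_assoc]
        by_cases hj : j = i
        · subst hj
          simp only [ev, map_add, map_mul, eval_X, Pi.single_eq_same, mul_one, if_true,
            smul_eq_mul]
          rw [add_smul, add_comm, mul_comm (x.ofLp j)]
        · rw [Pi.single_eq_of_ne (Ne.symm hj)]
          simp only [ev, map_add, map_mul, eval_X, map_zero, mul_zero,
            add_zero, if_neg hj, zero_add, smul_eq_mul]
          rw [mul_comm (x.ofLp i)]
      simp_rw [h4]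
      rw [Finset.sum_add_distrib, Finset.smul_sum]
      simp
    rw [h3, h2]
    exact h0

lemma fderiv_ev (P : MvPolynomial (Fin n) ℝ) (x : E n) (i : Fin n) :
    fderiv ℝ (ev P) x (EuclideanSpace.single i (1 : ℝ)) = ev (pderiv i P) x := by
  classical
  rw [(hasFDerivAt_ev P x).fderiv]
  simp

lemma contDiff_ev (P : MvPolynomial (Fin n) ℝ) {m : WithTop ℕ∞} : ContDiff ℝ m (ev P : E n → ℝ) := by
  induction P using MvPolynomial.induction_on with
  | C a =>
    have : (ev (C a) : E n → ℝ) = fun _ => a := by ext y; simp [ev]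
    rw [this]; exact contDiff_const
  | add p q hp hq =>
    have : (ev (p + q) : E n → ℝ) = fun x => ev p x + ev q x := by ext y; simp [ev]
    rw [this]; exact hp.add hq
  | mul_X p i hp =>
    have : (ev (p * X i) : E n → ℝ) = fun x => ev p x * (EuclideanSpace.proj i : E n →L[ℝ] ℝ) x := by
      ext y; simp [ev]
    rw [this]; exact hp.mul (EuclideanSpace.proj i : E n →L[ℝ] ℝ).contDiff

lemma lap_ev (P : MvPolynomial (Fin n) ℝ) (x : E n) : lap (ev P) x = ev (L P) x := by
  unfold lap
  have h : ∀ i : Fin n, iteratedFDeriv ℝ 2 (ev P) x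
      ![EuclideanSpace.single i (1 : ℝ), EuclideanSpace.single i (1 : ℝ)] =
      ev (pderiv i (pderiv i P)) x := by
    intro i
    rw [iteratedFDeriv_two_apply]
    have h2 : fderiv ℝ (fun y => fderiv ℝ (ev P) y (EuclideanSpace.single i (1 : ℝ))) x
        (EuclideanSpace.single i (1 : ℝ)) = fderiv ℝ (fderiv ℝ (ev P)) x
          (EuclideanSpace.single i (1 : ℝ)) (EuclideanSpace.single i (1 : ℝ)) := by
      have hd : DifferentiableAt ℝ (fderiv ℝ (ev P)) x :=
        ((contDiff_ev P (m := 2)).fderiv_right (m := 1) (by norm_num)).differentiable (by norm_num) x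
      rw [fderiv_clm_apply hd (differentiableAt_const _)]
      simp
    simp only [Matrix.cons_val_zero, Matrix.cons_val_one]
    rw [← h2]
    simp_rw [fderiv_ev]
  simp_rw [h]
  simp [ev, L, map_sum]

lemma ev_smul {d : ℕ} {P : MvPolynomial (Fin n) ℝ} (hP : P.IsHomogeneous d) (t : ℝ) (x : E n) :
    ev P (t • x) = t ^ d * ev P x := by
  unfold ev
  rw [eval_eq, eval_eq, Finset.mul_sum]
  apply Finset.sum_congr rfl
  intro m hm
  have hd : m.degree = d := by
    have := hP (mem_support_iff.mp hm)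
    rw [Finsupp.degree_eq_weight_one]
    exact this
  have h1 : ∀ i : Fin n, ((t • x) i) ^ m i = t ^ m i * (x i) ^ m i := by
    intro i; simp [mul_pow]
  simp_rw [h1]
  rw [Finset.prod_mul_distrib]
  have h2 : ∏ i ∈ m.support, t ^ m i = t ^ d := by
    rw [Finset.prod_pow_eq_pow_sum, ← hd]
    rfl
  rw [h2]; ring

lemma isHarm_ev {d : ℕ} {P : MvPolynomial (Fin n) ℝ} (hP : P.IsHomogeneous d) (hL : L P = 0) :
    IsHarm d (ev P : E n → ℝ) where
  smooth := contDiff_ev P
  homog := fun t _ x => ev_smul hP t x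
  harm := fun x => by rw [lap_ev, hL]; simp [ev]

lemma ev_R2 (x : E n) : ev (R2 n) x = ‖x‖ ^ 2 := by
  simp [ev, R2, EuclideanSpace.norm_sq_eq]

end

end NLSn.A97
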