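import Mathlib
import Pool.Agent.Lib52.NLSn.Defs
import Pool.Agent.Lib_helper97.NLSn.Eval

/-! Module A: solid harmonics times functions of the radius are total -/

namespace NLSn.A97

open MvPolynomial MeasureTheory Filter Topology Set

noncomputable section

variable {n : ℕ}

lemma int_of_bdd {f w : E n → ℝ} (hf : LocallyIntegrable f volume) (hw : Measurable w) {C R : ℝ}
    (hb : ∀ x, |w x| ≤ C) (hs : ∀ x, R < ‖x‖ → w x = 0) :
    Integrable (fun x => f x * w x) volume := by
  have h1 : IntegrableOn f (Metric.closedBall (0 : E n) R) volume :=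
    hf.integrableOn_isCompact (isCompact_closedBall 0 R)
  have h2 : IntegrableOn (fun x => f x * w x) (Metric.closedBall (0 : E n) R) volume :=
    Integrable.mul_bdd (c := C) h1 hw.aestronglyMeasurable
      (Eventually.of_forall fun x => by simpa using hb x)
  apply h2.integrable_of_forall_notMem_eq_zero
  intro x hx
  rw [hs x (by simpa using hx), mul_zero]

lemma supp_log {κ : ℝ → ℝ} (hκ : HasCompactSupport κ) :
    ∃ R : ℝ, 0 < R ∧ ∀ x : E n, R < ‖x‖ → κ (Real.log ‖x‖) = 0 := by
  obtain ⟨b, hb⟩ := hκ.isBounded.subset_closedBall 0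
  refine ⟨Real.exp b, Real.exp_pos _, ?_⟩
  intro x hx
  by_contra hne
  have h1 : Real.log ‖x‖ ∈ tsupport κ := subset_tsupport κ hne
  have h2 := hb h1
  simp only [Metric.mem_closedBall, dist_zero_right, Real.norm_eq_abs] at h2
  have h3 : Real.log ‖x‖ ≤ b := (le_abs_self _).trans h2
  have hx0 : 0 < ‖x‖ := (Real.exp_pos b).trans hx
  have h4 : ‖x‖ ≤ Real.exp b := by
    rw [← Real.exp_log hx0]; exact Real.exp_le_exp.mpr h3
  linarith

lemma bdd_kappa {κ : ℝ → ℝ} (hc : Continuous κ) (hκ : HasCompactSupport κ) :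
    ∃ C : ℝ, ∀ τ, |κ τ| ≤ C := by
  obtain ⟨C, hC⟩ := hκ.exists_bound_of_continuous hc
  exact ⟨C, fun τ => by simpa using hC τ⟩

lemma meas_kappa {κ : ℝ → ℝ} (hc : Continuous κ) :
    Measurable (fun x : E n => κ (Real.log ‖x‖)) :=
  hc.measurable.comp (Real.measurable_log.comp measurable_norm)

lemma int_kappa {f p : E n → ℝ} (hf : LocallyIntegrable f volume) (hp : Continuous p) {κ : ℝ → ℝ}
    (hc : Continuous κ) (hκ : HasCompactSupport κ) :
    Integrable (fun x => f x * (κ (Real.log ‖x‖) * p x)) volume := by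
  obtain ⟨R, _, hR⟩ := supp_log (n := n) hκ
  obtain ⟨C, hC⟩ := bdd_kappa hc hκ
  obtain ⟨D, hD⟩ := (isCompact_closedBall (0 : E n) R).exists_bound_of_continuousOn hp.continuousOn
  have hC0 : 0 ≤ C := (abs_nonneg _).trans (hC 0)
  refine int_of_bdd (C := C * |D|) (R := R) hf ((meas_kappa hc).mul hp.measurable) ?_ ?_
  · intro x
    rw [abs_mul]
    by_cases hx : R < ‖x‖
    · rw [hR x hx]; simp; positivity
    · have h1 := hD x (by simpa using not_lt.mp hx)
      exact mul_le_mul (hC _) (by simpa using h1.trans (le_abs_self D)) (abs_nonneg _) hC0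
  · intro x hx
    rw [hR x hx, zero_mul]

lemma vol_zero (hn : 1 ≤ n) : volume ({0} : Set (E n)) = 0 := by
  haveI : Nonempty (Fin n) := ⟨⟨0, by omega⟩⟩
  exact measure_singleton 0

/-- all polynomial weights -/
lemma good_all (hn : 1 ≤ n) {f : E n → ℝ} (hf : LocallyIntegrable f volume)
    (H : ∀ (l : ℕ) (Y : E n → ℝ), IsHarm l Y → ∀ κ : ℝ → ℝ, ContDiff ℝ (⊤ : ℕ∞) κ →
      HasCompactSupport κ → ∫ x, f x * (κ (Real.log ‖x‖) * Y x) = 0)
    (P : MvPolynomial (Fin n) ℝ) : ∀ κ : ℝ → ℝ, ContDiff ℝ (⊤ : ℕ∞) κ →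
      HasCompactSupport κ → ∫ x, f x * (κ (Real.log ‖x‖) * ev P x) = 0 := by
  refine poly_induction hn (fun P => ∀ κ : ℝ → ℝ, ContDiff ℝ (⊤ : ℕ∞) κ →
      HasCompactSupport κ → ∫ x, f x * (κ (Real.log ‖x‖) * ev P x) = 0) ?_ ?_ ?_ P
  · intro P Q hP hQ κ hκ hs
    have h1 : ∀ x : E n, f x * (κ (Real.log ‖x‖) * ev (P + Q) x) =
        f x * (κ (Real.log ‖x‖) * ev P x) + f x * (κ (Real.log ‖x‖) * ev Q x) := by
      intro x; simp only [ev, map_add]; ring
    simp_rw [h1]
    rw [integral_add (int_kappa hf (contDiff_ev P (m := 0)).continuous hκ.continuous hs)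
      (int_kappa hf (contDiff_ev Q (m := 0)).continuous hκ.continuous hs), hP κ hκ hs, hQ κ hκ hs,
      add_zero]
  · intro P hP κ hκ hs
    have h1 := hP (fun τ => κ τ * Real.exp (2 * τ)) (hκ.mul (by fun_prop)) hs.mul_right
    rw [← h1]
    apply integral_congr_ae
    have h0 : ∀ᵐ x : E n, x ≠ 0 := by
      rw [ae_iff]; simpa using vol_zero hn
    filter_upwards [h0] with x hx
    have hx' : 0 < ‖x‖ := norm_pos_iff.mpr hx
    have h2 : Real.exp (2 * Real.log ‖x‖) = ‖x‖ ^ 2 := by
      rw [two_mul, Real.exp_add, Real.exp_log hx']; ring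
    have h3 : ev (R2 n * P) x = ‖x‖ ^ 2 * ev P x := by
      rw [← ev_R2]; simp [ev]
    simp only [h2, h3]
    ring
  · intro d P hP hL κ hκ hs
    exact H d (ev P) (isHarm_ev hP hL) κ hκ hs

/-- polynomial approximation on balls -/
lemma approx (R : ℝ) {g : E n → ℝ} (hg : Continuous g) {ε : ℝ} (hε : 0 < ε) :
    ∃ P : MvPolynomial (Fin n) ℝ, ∀ x : E n, ‖x‖ ≤ R → |ev P x - g x| < ε := by
  haveI : CompactSpace (Metric.closedBall (0 : E n) R) :=
    isCompact_iff_compactSpace.mp (isCompact_closedBall 0 R)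
  let φ : Fin n → C(Metric.closedBall (0 : E n) R, ℝ) := fun i =>
    ⟨fun x => (x : E n) i, by fun_prop⟩
  let A : Subalgebra ℝ C(Metric.closedBall (0 : E n) R, ℝ) := (aeval (R := ℝ) φ).range
  have hsep : A.SeparatesPoints := by
    intro x y hxy
    have : ∃ i, (x : E n) i ≠ (y : E n) i := by
      by_contra hcon
      push Not at hcon
      exact hxy (Subtype.ext (by ext i; exact hcon i))
    obtain ⟨i, hi⟩ := this
    refine ⟨φ i, ⟨φ i, ⟨X i, by simp⟩, rfl⟩, hi⟩
  have hev : ∀ (P : MvPolynomial (Fin n) ℝ) (x : Metric.closedBall (0 : E n) R),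
      (aeval (R := ℝ) φ P) x = ev P x := by
    intro P x
    induction P using MvPolynomial.induction_on with
    | C a => simp [ev]
    | add p q hp hq => simp only [map_add, ContinuousMap.add_apply, hp, hq]; simp [ev]
    | mul_X p i hp =>
      simp only [map_mul, ContinuousMap.mul_apply, hp, aeval_X]
      simp [ev, φ]
  obtain ⟨⟨q, P, hP⟩, hq⟩ := ContinuousMap.exists_mem_subalgebra_near_continuous_of_separatesPoints
    A hsep (fun x : Metric.closedBall (0 : E n) R => g x) (by fun_prop) ε hε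
  refine ⟨P, fun x hx => ?_⟩
  have h1 := hq ⟨x, by simpa using hx⟩
  have h2 := hev P ⟨x, by simpa using hx⟩
  have h3 : q = aeval (R := ℝ) φ P := hP.symm
  rw [← h2, ← h3]
  exact h1

end

end NLSn.A97

namespace NLSn

open NLSn.A97 MeasureTheory Filter Topology Set

/-- MODULE A -/
theorem stmtA : StmtA := by
  intro n hn f hf H
  have hall := good_all hn hf H
  have h0 : ∀ᵐ x : E n, x ≠ 0 := by
    rw [ae_iff]; simpa using vol_zero hn
  have hU : IsOpen ({0}ᶜ : Set (E n)) := isOpen_compl_singleton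
  have key : ∀ᵐ x : E n ∂volume, x ∈ ({0}ᶜ : Set (E n)) → f x = 0 := by
    apply hU.ae_eq_zero_of_integral_contDiff_smul_eq_zero (hf.locallyIntegrableOn _)
    intro g hg hgs hgt
    -- the support avoids a ball around zero and lies in a ball
    have h0g : (0 : E n) ∈ (tsupport g)ᶜ := fun h => hgt h rfl
    obtain ⟨a, ha, hball⟩ := Metric.isOpen_iff.mp (isClosed_tsupport g).isOpen_compl 0 h0g
    obtain ⟨b, hb⟩ := hgs.isBounded.subset_closedBall 0
    have hga : ∀ x, g x ≠ 0 → a ≤ ‖x‖ := by
      intro x hx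
      by_contra hlt
      exact hball (by simpa using not_le.mp hlt) (subset_tsupport g hx)
    have hgb : ∀ x, g x ≠ 0 → ‖x‖ ≤ b := by
      intro x hx
      simpa using hb (subset_tsupport g hx)
    -- cut off function
    let A : ℝ := |Real.log a| + |Real.log b| + 1
    have hA : 0 < A := by positivity
    let κ : ContDiffBump (0 : ℝ) := ⟨A, A + 1, hA, by linarith⟩
    have hκ1 : ∀ x : E n, g x ≠ 0 → κ (Real.log ‖x‖) = 1 := by
      intro x hx
      apply κ.one_of_mem_closedBall
      have hx1 := hga x hx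
      have hx2 := hgb x hx
      have hx0 : 0 < ‖x‖ := ha.trans_le hx1
      have l1 : Real.log a ≤ Real.log ‖x‖ := Real.log_le_log ha hx1
      have l2 : Real.log ‖x‖ ≤ Real.log b := Real.log_le_log hx0 hx2
      simp only [Metric.mem_closedBall, dist_zero_right, Real.norm_eq_abs]
      show |Real.log ‖x‖| ≤ A
      have := neg_abs_le (Real.log a)
      have := le_abs_self (Real.log b)
      have := abs_nonneg (Real.log a)
      have := abs_nonneg (Real.log b)
      exact abs_le.mpr ⟨by simp only [A]; linarith, by simp only [A]; linarith⟩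
    have hκc : Continuous (κ : ℝ → ℝ) := κ.continuous
    have hκs : HasCompactSupport (κ : ℝ → ℝ) := κ.hasCompactSupport
    have hκd : ContDiff ℝ (⊤ : ℕ∞) (κ : ℝ → ℝ) := κ.contDiff
    obtain ⟨R, _, hR⟩ := supp_log (n := n) hκs
    have hint : Integrable (fun x => f x * (κ (Real.log ‖x‖) * (1 : ℝ))) volume :=
      int_kappa (p := fun _ => (1 : ℝ)) hf continuous_const hκc hκs
    let M : ℝ := ∫ x, ‖f x * (κ (Real.log ‖x‖) * (1 : ℝ))‖
    have hM : 0 ≤ M := integral_nonneg fun _ => norm_nonneg _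
    have hle : ∀ ε : ℝ, 0 < ε → |∫ x, g x • f x| ≤ ε * M := by
      intro ε hε
      obtain ⟨P, hP⟩ := approx R hg.continuous hε
      have e1 : ∫ x, g x • f x = ∫ x, f x * (κ (Real.log ‖x‖) * g x) := by
        apply integral_congr_ae
        refine Eventually.of_forall fun x => ?_
        by_cases hx : g x = 0
        · simp [hx]
        · simp only [hκ1 x hx, smul_eq_mul]; ring
      have e2 : ∫ x, g x • f x = ∫ x, f x * (κ (Real.log ‖x‖) * (g x - ev P x)) := by
        have e3 : ∀ x, f x * (κ (Real.log ‖x‖) * (g x - ev P x)) =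
            f x * (κ (Real.log ‖x‖) * g x) - f x * (κ (Real.log ‖x‖) * ev P x) := by
          intro x; ring
        simp_rw [e3]
        rw [integral_sub (int_kappa hf hg.continuous hκc hκs)
          (int_kappa hf (contDiff_ev P (m := 0)).continuous hκc hκs), hall P κ hκd hκs, sub_zero, e1]
      rw [e2, ← Real.norm_eq_abs]
      calc ‖∫ x, f x * (κ (Real.log ‖x‖) * (g x - ev P x))‖
          ≤ ∫ x, ε * ‖f x * (κ (Real.log ‖x‖) * (1 : ℝ))‖ := by
            apply norm_integral_le_of_norm_le (hint.norm.const_mul ε)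
            refine Eventually.of_forall fun x => ?_
            by_cases hx : R < ‖x‖
            · simp [hR x hx]
            · have h1 := hP x (not_lt.mp hx)
              simp only [norm_mul, Real.norm_eq_abs, abs_one, mul_one]
              rw [abs_sub_comm] at h1
              nlinarith [abs_nonneg (f x), abs_nonneg (κ (Real.log ‖x‖)),
                mul_nonneg (abs_nonneg (f x)) (abs_nonneg (κ (Real.log ‖x‖)))]
        _ = ε * M := by rw [integral_const_mul]
    have : |∫ x, g x • f x| ≤ 0 := by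
      apply le_of_forall_pos_le_add
      intro ε hε
      have := hle (ε / (M + 1)) (by positivity)
      have h2 : ε / (M + 1) * M ≤ ε := by
        rw [div_mul_eq_mul_div, div_le_iff₀ (by positivity)]
        nlinarith
      linarith
    exact abs_nonpos_iff.mp this
  filter_upwards [key, h0] with x hx hx0
  exact hx hx0

end NLSn
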