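import Mathlib
import Pool.Agent.Lib52.NLSn.Defs

/-! Weak Laplacians in `L²`: from real test functions to complex Schwartz functions -/

namespace NLSn.D97

open MeasureTheory Filter Topology Set Laplacian SchwartzMap

noncomputable section

lemma two_le_top : (2 : WithTop ℕ∞) ≤ ((⊤ : ℕ∞) : WithTop ℕ∞) := by
  have h : (((2 : ℕ) : ℕ∞) : WithTop ℕ∞) ≤ ((⊤ : ℕ∞) : WithTop ℕ∞) :=
    WithTop.coe_le_coe.mpr le_top
  exact h

variable {n : ℕ} {G : Type*} [NormedAddCommGroup G] [NormedSpace ℝ G]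

lemma lap_eq (f : E n → G) (x : E n) : lap f x = (Δ f) x := by
  rw [InnerProductSpace.laplacian_eq_iteratedFDeriv_orthonormalBasis f
    (EuclideanSpace.basisFun (Fin n) ℝ)]
  simp [lap]

lemma continuous_lap {f : E n → G} (hf : ContDiff ℝ (⊤ : ℕ∞) f) : Continuous (lap f) := by
  unfold lap
  have h := hf.continuous_iteratedFDeriv (m := 2) two_le_top
  fun_prop

lemma norm_lap_le (f : E n → G) (x : E n) : ‖lap f x‖ ≤ n * ‖iteratedFDeriv ℝ 2 f x‖ := by
  unfold lap
  refine (norm_sum_le _ _).trans ?_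
  have : ∀ i : Fin n, ‖iteratedFDeriv ℝ 2 f x
      ![EuclideanSpace.single i (1 : ℝ), EuclideanSpace.single i (1 : ℝ)]‖ ≤
      ‖iteratedFDeriv ℝ 2 f x‖ := by
    intro i
    refine ((iteratedFDeriv ℝ 2 f x).le_opNorm _).trans ?_
    simp [Fin.prod_univ_two]
  refine (Finset.sum_le_sum fun i _ => this i).trans ?_
  simp

lemma lap_congr {f g : E n → G} {x : E n} (h : f =ᶠ[𝓝 x] g) : lap f x = lap g x := by
  unfold lap
  rw [(EventuallyEq.iteratedFDeriv ℝ h 2).self_of_nhds]

lemma hasCompactSupport_lap {f : E n → G} (hf : HasCompactSupport f) :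
    HasCompactSupport (lap f) := by
  have h := hf.iteratedFDeriv (𝕜 := ℝ) 2
  refine h.mono ?_
  intro x hx
  simp only [Function.mem_support] at hx ⊢
  intro h0
  apply hx
  simp [lap, h0]

lemma lap_re {ψ : E n → ℂ} (hψ : ContDiff ℝ (⊤ : ℕ∞) ψ) (x : E n) :
    lap (fun y => (ψ y).re) x = (lap ψ x).re := by
  rw [lap_eq, lap_eq]
  exact ContDiffAt.laplacian_CLM_comp_left (l := Complex.reCLM) (f := ψ)
    ((hψ.of_le two_le_top).contDiffAt)

lemma lap_im {ψ : E n → ℂ} (hψ : ContDiff ℝ (⊤ : ℕ∞) ψ) (x : E n) :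
    lap (fun y => (ψ y).im) x = (lap ψ x).im := by
  rw [lap_eq, lap_eq]
  exact ContDiffAt.laplacian_CLM_comp_left (l := Complex.imCLM) (f := ψ)
    ((hψ.of_le two_le_top).contDiffAt)

lemma int_mul_compact {f : E n → ℝ} (hf : MemLp f 2 volume) {ψ : E n → ℂ} (hc : Continuous ψ)
    (hs : HasCompactSupport ψ) : Integrable (fun x => ψ x * (f x : ℂ)) volume := by
  have h1 : MemLp ψ 2 volume := hc.memLp_of_hasCompactSupport hs
  have h2 : MemLp (fun x => (f x : ℂ)) 2 volume := hf.ofReal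
  exact h1.integrable_mul h2

lemma weak_complex {f F : E n → ℝ} (hf : MemLp f 2 volume) (hF : MemLp F 2 volume)
    (h : WeakLap f F) {ψ : E n → ℂ} (hψ : ContDiff ℝ (⊤ : ℕ∞) ψ) (hs : HasCompactSupport ψ) :
    ∫ x, lap ψ x * (f x : ℂ) = ∫ x, ψ x * (F x : ℂ) := by
  have i1 := int_mul_compact hf (continuous_lap hψ) (hasCompactSupport_lap hs)
  have i2 := int_mul_compact hF hψ.continuous hs
  have hre := h (fun y => (ψ y).re) ⟨Complex.reCLM.contDiff.comp hψ, hs.comp_left Complex.zero_re⟩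
  have him := h (fun y => (ψ y).im) ⟨Complex.imCLM.contDiff.comp hψ, hs.comp_left Complex.zero_im⟩
  apply Complex.ext
  · have e1 := Complex.reCLM.integral_comp_comm i1
    have e2 := Complex.reCLM.integral_comp_comm i2
    simp only [Complex.reCLM_apply] at e1 e2
    rw [← e1, ← e2]
    simp only [lap_re hψ] at hre
    simpa [mul_comm] using hre
  · have e1 := Complex.imCLM.integral_comp_comm i1
    have e2 := Complex.imCLM.integral_comp_comm i2
    simp only [Complex.imCLM_apply] at e1 e2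
    rw [← e1, ← e2]
    simp only [lap_im hψ] at him
    simpa [mul_comm] using him

/-- the standard bump -/
def bump (n : ℕ) : ContDiffBump (0 : E n) := ⟨1, 2, one_pos, one_lt_two⟩

/-- scaled cutoff functions -/
def chi (k : ℕ) (x : E n) : ℝ := bump n (((k : ℝ) + 1)⁻¹ • x)

lemma chi_contDiff (k : ℕ) : ContDiff ℝ (⊤ : ℕ∞) (chi k : E n → ℝ) :=
  (bump n).contDiff.comp (contDiff_const_smul _)

lemma chi_compact (k : ℕ) : HasCompactSupport (chi k : E n → ℝ) := by
  have h := (bump n).hasCompactSupport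
  have hk : ((k : ℝ) + 1)⁻¹ ≠ 0 := by positivity
  exact h.comp_homeomorph (Homeomorph.smulOfNeZero _ hk)

lemma chi_eq_one {k : ℕ} {x : E n} (h : ‖x‖ < k) : (chi k : E n → ℝ) =ᶠ[𝓝 x] fun _ => 1 := by
  have ho : IsOpen {y : E n | ‖y‖ < k} := isOpen_lt continuous_norm continuous_const
  filter_upwards [ho.mem_nhds h] with y hy
  apply (bump n).one_of_mem_closedBall
  simp only [Metric.mem_closedBall, dist_zero_right, norm_smul, norm_inv, Real.norm_eq_abs]
  have hy' : ‖y‖ < k := hy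
  rw [abs_of_pos (by positivity : (0 : ℝ) < k + 1), inv_mul_le_iff₀ (by positivity)]
  show ‖y‖ ≤ ((k : ℝ) + 1) * 1
  linarith

lemma chi_bound (j : ℕ) : ∃ C : ℝ, 0 ≤ C ∧ ∀ (k : ℕ) (x : E n), ‖iteratedFDeriv ℝ j (chi k) x‖ ≤ C := by
  have hs := ((bump n).hasCompactSupport).iteratedFDeriv (𝕜 := ℝ) j
  have hc : ContDiff ℝ (⊤ : ℕ∞) (bump n : E n → ℝ) := (bump n).contDiff
  obtain ⟨C, hC⟩ := hs.exists_bound_of_continuous
    (hc.continuous_iteratedFDeriv (by exact_mod_cast le_top))
  refine ⟨C, (norm_nonneg _).trans (hC 0), fun k x => ?_⟩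
  have e1 : (chi k : E n → ℝ) = (bump n : E n → ℝ) ∘
      ((((k : ℝ) + 1)⁻¹) • ContinuousLinearMap.id ℝ (E n)) := by
    ext y; simp [chi]
  rw [e1, ContinuousLinearMap.iteratedFDeriv_comp_right _ hc x (by exact_mod_cast le_top)]
  refine (ContinuousMultilinearMap.norm_compContinuousLinearMap_le _ _).trans ?_
  have h1 : ‖(((k : ℝ) + 1)⁻¹) • ContinuousLinearMap.id ℝ (E n)‖ ≤ 1 := by
    rw [norm_smul]
    have h2 : ‖((k : ℝ) + 1)⁻¹‖ ≤ 1 := by
      rw [norm_inv, Real.norm_eq_abs, abs_of_pos (by positivity)]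
      apply inv_le_one_of_one_le₀
      linarith [(Nat.cast_nonneg k : (0 : ℝ) ≤ k)]
    have h3 : ‖ContinuousLinearMap.id ℝ (E n)‖ ≤ 1 := ContinuousLinearMap.norm_id_le
    calc _ ≤ 1 * 1 := mul_le_mul h2 h3 (norm_nonneg _) zero_le_one
      _ = 1 := one_mul 1
  have h4 : ∏ _i : Fin j, ‖(((k : ℝ) + 1)⁻¹) • ContinuousLinearMap.id ℝ (E n)‖ ≤ 1 :=
    Finset.prod_le_one (fun _ _ => norm_nonneg _) (fun _ _ => h1)
  calc _ ≤ C * 1 := mul_le_mul (hC _) h4 (Finset.prod_nonneg fun _ _ => norm_nonneg _)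
        ((norm_nonneg _).trans (hC 0))
    _ = C := mul_one C

lemma memLp_iter (u : 𝓢(E n, ℂ)) (j : ℕ) :
    MemLp (fun x => ‖iteratedFDeriv ℝ j u x‖) 2 volume := by
  have hc : Continuous (fun x => ‖iteratedFDeriv ℝ j u x‖) :=
    ((u.smooth ⊤).continuous_iteratedFDeriv (mod_cast le_top)).norm
  have hi : Integrable (fun x => ‖iteratedFDeriv ℝ j u x‖) volume := by
    simpa using u.integrable_pow_mul_iteratedFDeriv volume 0 j
  obtain ⟨C, hC⟩ := u.decay 0 j
  rw [memLp_two_iff_integrable_sq hc.aestronglyMeasurable]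
  refine (hi.const_mul C).mono' (hc.pow 2).aestronglyMeasurable ?_
  refine Eventually.of_forall fun x => ?_
  have h1 := hC.2 x
  rw [pow_zero, one_mul] at h1
  rw [Real.norm_eq_abs, abs_of_nonneg (by positivity), sq]
  exact mul_le_mul_of_nonneg_right h1 (norm_nonneg _)

/-- Weak Laplacians can be tested on Schwartz functions. -/
theorem weak_schwartz {f F : E n → ℝ} (hf : MemLp f 2 volume) (hF : MemLp F 2 volume)
    (h : WeakLap f F) (u : 𝓢(E n, ℂ)) :
    ∫ x, lap (u : E n → ℂ) x * (f x : ℂ) = ∫ x, u x * (F x : ℂ) := by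
  have husm : ContDiff ℝ (⊤ : ℕ∞) (u : E n → ℂ) := u.smooth ⊤
  let ψ : ℕ → E n → ℂ := fun k x => chi k x • u x
  have hψ : ∀ k, ContDiff ℝ (⊤ : ℕ∞) (ψ k) := fun k => (chi_contDiff k).smul husm
  have hψs : ∀ k, HasCompactSupport (ψ k) := fun k => (chi_compact k).smul_right
  have hk := fun k => weak_complex hf hF h (hψ k) (hψs k)
  -- eventual equality
  have hev : ∀ x : E n, ∀ᶠ k : ℕ in atTop, ψ k =ᶠ[𝓝 x] u := by
    intro x
    obtain ⟨N, hN⟩ := exists_nat_gt ‖x‖
    filter_upwards [eventually_ge_atTop N] with k hk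
    have h1 : ‖x‖ < k := hN.trans_le (by exact_mod_cast hk)
    filter_upwards [chi_eq_one h1] with y hy
    simp [ψ, hy]
  -- bounds
  choose C hC0 hC using fun j => chi_bound (n := n) j
  have t1 : Tendsto (fun k => ∫ x, lap (ψ k) x * (f x : ℂ)) atTop
      (𝓝 (∫ x, lap (u : E n → ℂ) x * (f x : ℂ))) := by
    let B : E n → ℝ := fun x => (n : ℝ) * ∑ j ∈ Finset.range (2 + 1),
      ((2 : ℕ).choose j : ℝ) * C j * ‖iteratedFDeriv ℝ (2 - j) u x‖
    have hB : MemLp B 2 volume := by
      apply MemLp.const_mul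
      apply memLp_finsetSum
      intro j _
      exact (memLp_iter u (2 - j)).const_mul _
    apply tendsto_integral_of_dominated_convergence (fun x => B x * ‖f x‖)
    · intro k
      exact ((continuous_lap (hψ k)).aestronglyMeasurable).mul hf.ofReal.aestronglyMeasurable
    · exact hB.integrable_mul hf.norm
    · intro k
      refine Eventually.of_forall fun x => ?_
      rw [norm_mul]
      have e1 : ‖(f x : ℂ)‖ = ‖f x‖ := by simp
      rw [e1]
      apply mul_le_mul_of_nonneg_right _ (norm_nonneg _)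
      refine (norm_lap_le _ _).trans ?_
      apply mul_le_mul_of_nonneg_left _ (Nat.cast_nonneg n)
      refine (norm_iteratedFDeriv_smul_le (chi_contDiff k) husm x
        (n := 2) two_le_top).trans ?_
      apply Finset.sum_le_sum
      intro j _
      apply mul_le_mul_of_nonneg_right _ (norm_nonneg _)
      exact mul_le_mul_of_nonneg_left (hC j k x) (by positivity)
    · refine Eventually.of_forall fun x => ?_
      apply tendsto_const_nhds.congr'
      filter_upwards [hev x] with k hk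
      rw [lap_congr hk]
  have t2 : Tendsto (fun k => ∫ x, ψ k x * (F x : ℂ)) atTop (𝓝 (∫ x, u x * (F x : ℂ))) := by
    apply tendsto_integral_of_dominated_convergence (fun x => (C 0 * ‖iteratedFDeriv ℝ 0 u x‖) * ‖F x‖)
    · intro k
      exact (hψ k).continuous.aestronglyMeasurable.mul hF.ofReal.aestronglyMeasurable
    · exact ((memLp_iter u 0).const_mul (C 0)).integrable_mul hF.norm
    · intro k
      refine Eventually.of_forall fun x => ?_
      rw [norm_mul]
      have e1 : ‖(F x : ℂ)‖ = ‖F x‖ := by simp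
      rw [e1]
      apply mul_le_mul_of_nonneg_right _ (norm_nonneg _)
      have h1 := hC 0 k x
      rw [norm_iteratedFDeriv_zero] at h1 ⊢
      rw [norm_smul]
      exact mul_le_mul_of_nonneg_right h1 (norm_nonneg _)
    · refine Eventually.of_forall fun x => ?_
      apply tendsto_const_nhds.congr'
      filter_upwards [hev x] with k hk
      rw [hk.self_of_nhds]
  have t3 := t1.congr hk
  exact tendsto_nhds_unique t3 t2

end

end NLSn.D97
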