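import Mathlib
import Pool.Agent.Lib52.NLSn.Defs
import Pool.Agent.Lib_helper97.NLSn.DCut

/-! Module D: symmetry and negativity of the Laplacian on its maximal domain -/

namespace NLSn.D97

open MeasureTheory Filter Topology Set Laplacian SchwartzMap FourierTransform

noncomputable section

variable {n : ℕ}

/-- the complex `L²` class of a real function -/
def cl {f : E n → ℝ} (hf : MemLp f 2 volume) : Lp (α := E n) ℂ 2 :=
  (hf.ofReal (K := ℂ)).toLp

lemma cl_ae {f : E n → ℝ} (hf : MemLp f 2 volume) : cl hf =ᵐ[volume] fun x => (f x : ℂ) :=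
  MemLp.coeFn_toLp _

lemma laplace_distr {f F : E n → ℝ} (hf : MemLp f 2 volume) (hF : MemLp F 2 volume)
    (h : WeakLap f F) :
    Δ ((cl hf : Lp (α := E n) ℂ 2) : 𝓢'(E n, ℂ)) = ((cl hF : Lp (α := E n) ℂ 2) : 𝓢'(E n, ℂ)) := by
  ext u
  rw [TemperedDistribution.laplacian_apply_apply, Lp.toTemperedDistribution_apply,
    Lp.toTemperedDistribution_apply]
  have h1 := weak_schwartz hf hF h u
  have e1 : ∫ x, (Δ u) x • (cl hf : E n → ℂ) x = ∫ x, lap (u : E n → ℂ) x * (f x : ℂ) := by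
    apply integral_congr_ae
    filter_upwards [cl_ae hf] with x hx
    rw [hx, smul_eq_mul, lap_eq, SchwartzMap.laplacian_apply]
  have e2 : ∫ x, u x • (cl hF : E n → ℂ) x = ∫ x, u x * (F x : ℂ) := by
    apply integral_congr_ae
    filter_upwards [cl_ae hF] with x hx
    rw [hx, smul_eq_mul]
  rw [e1, e2, h1]

/-- the complex class of the Fourier transform -/
def ft {f : E n → ℝ} (hf : MemLp f 2 volume) : Lp (α := E n) ℂ 2 := 𝓕 (cl hf)

lemma fourier_test {f F : E n → ℝ} (hf : MemLp f 2 volume) (hF : MemLp F 2 volume)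
    (h : WeakLap f F) (v : 𝓢(E n, ℂ)) :
    ∫ x, v x • (ft hF : E n → ℂ) x =
      ∫ x, ((-(2 * Real.pi) ^ 2 * ‖x‖ ^ 2 : ℝ) : ℂ) * (v x * (ft hf : E n → ℂ) x) := by
  have hl := laplace_distr hf hF h
  rw [TemperedDistribution.laplacian_eq_fourierMultiplierCLM] at hl
  have hl2 := congrArg (fun T : 𝓢'(E n, ℂ) => T (𝓕 v)) hl
  simp only at hl2
  have r : ∀ (w : Lp (α := E n) ℂ 2) (v : 𝓢(E n, ℂ)), (w : 𝓢'(E n, ℂ)) (𝓕 v) =
      ∫ x, v x • (𝓕 w : Lp (α := E n) ℂ 2) x := by
    intro w v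
    rw [← TemperedDistribution.fourier_apply, Lp.fourier_toTemperedDistribution_eq,
      Lp.toTemperedDistribution_apply]
  rw [r (cl hF) v] at hl2
  have e1 : ∀ (c : ℝ) (T : 𝓢'(E n, ℂ)) (w : 𝓢(E n, ℂ)), (c • T) w = c • T w := fun _ _ _ => rfl
  rw [e1, TemperedDistribution.fourierMultiplierCLM_apply_apply,
    FourierTransform.fourierInv_fourier_eq, r] at hl2
  unfold ft
  rw [← hl2, ← integral_smul]
  apply integral_congr_ae
  refine Eventually.of_forall fun x => ?_
  have hg : (fun x : E n ↦ Complex.ofReal (‖x‖ ^ 2)).HasTemperateGrowth := by fun_prop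
  simp only [SchwartzMap.smulLeftCLM_apply_apply hg, smul_eq_mul, Complex.real_smul]
  push_cast
  ring

/-- the symbol of the Laplacian -/
def sy (x : E n) : ℂ := ((-(2 * Real.pi) ^ 2 * ‖x‖ ^ 2 : ℝ) : ℂ)

lemma sy_cont : Continuous (sy : E n → ℂ) := by
  unfold sy
  fun_prop

/-- On the Fourier side the Laplacian is a multiplication. -/
theorem fourier_mul {f F : E n → ℝ} (hf : MemLp f 2 volume) (hF : MemLp F 2 volume)
    (h : WeakLap f F) :
    ∀ᵐ x : E n ∂volume, (ft hF : E n → ℂ) x = sy x * (ft hf : E n → ℂ) x := by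
  have l1 : LocallyIntegrable (ft hF : E n → ℂ) volume :=
    (Lp.memLp (ft hF)).locallyIntegrable one_le_two
  have l2 : LocallyIntegrable (ft hf : E n → ℂ) volume :=
    (Lp.memLp (ft hf)).locallyIntegrable one_le_two
  have l3 : LocallyIntegrable (fun x => sy x * (ft hf : E n → ℂ) x) volume := by
    simpa [smul_eq_mul] using l2.continuous_smul sy_cont
  have key : ∀ᵐ x : E n ∂volume, (ft hF : E n → ℂ) x = sy x * (ft hf : E n → ℂ) x := by
    apply ae_eq_of_integral_contDiff_smul_eq l1 l3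
    intro g hg hs
    have hg₁ : HasCompactSupport (fun x => (g x : ℂ)) := hs.comp_left (g := Complex.ofReal) rfl
    have hg₂ : ContDiff ℝ (⊤ : ℕ∞) (fun x => (g x : ℂ)) := Complex.ofRealCLM.contDiff.comp hg
    have h1 := fourier_test hf hF h (hg₁.toSchwartzMap hg₂)
    have e1 : ∀ x, (hg₁.toSchwartzMap hg₂) x = (g x : ℂ) := fun x => rfl
    simp only [e1, smul_eq_mul] at h1
    simp only [Complex.real_smul]
    rw [h1]
    apply integral_congr_ae
    refine Eventually.of_forall fun x => ?_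
    simp only [sy]
    ring
  exact key

lemma inner_cl {f g : E n → ℝ} (hf : MemLp f 2 volume) (hg : MemLp g 2 volume) :
    inner ℂ (cl hf) (cl hg) = ((∫ x, f x * g x : ℝ) : ℂ) := by
  rw [L2.inner_def, ← integral_complex_ofReal]
  apply integral_congr_ae
  filter_upwards [cl_ae hf, cl_ae hg] with x h1 h2
  rw [h1, h2]
  simp [mul_comm]

lemma inner_ft {f g : E n → ℝ} (hf : MemLp f 2 volume) (hg : MemLp g 2 volume) :
    inner ℂ (ft hf) (ft hg) = ((∫ x, f x * g x : ℝ) : ℂ) := by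
  rw [← inner_cl hf hg]
  exact Lp.inner_fourier_eq _ _

end

end NLSn.D97

namespace NLSn

open NLSn.D97 MeasureTheory Filter Topology Set

/-- MODULE D -/
theorem stmtD : StmtD := by
  intro n _ f F g G hf hF hg hG h1 h2
  have a1 := fourier_mul hf hF h1
  have a2 := fourier_mul hg hG h2
  constructor
  · have e : inner ℂ (ft hF) (ft hg) = inner ℂ (ft hf) (ft hG) := by
      rw [L2.inner_def, L2.inner_def]
      apply integral_congr_ae
      filter_upwards [a1, a2] with x b1 b2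
      rw [b1, b2]
      simp only [RCLike.inner_apply, map_mul, sy, Complex.conj_ofReal]
      ring
    rw [inner_ft, inner_ft] at e
    exact_mod_cast e
  · have e : inner ℂ (ft hF) (ft hf) =
        ((∫ x : E n, (-(2 * Real.pi) ^ 2 * ‖x‖ ^ 2) * ‖(ft hf : E n → ℂ) x‖ ^ 2 : ℝ) : ℂ) := by
      rw [L2.inner_def, ← integral_complex_ofReal]
      apply integral_congr_ae
      filter_upwards [a1] with x b1
      rw [b1]
      simp only [RCLike.inner_apply, map_mul, sy, Complex.conj_ofReal]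
      have h3 : (ft hf : E n → ℂ) x * (starRingEnd ℂ) ((ft hf : E n → ℂ) x) =
          ((‖(ft hf : E n → ℂ) x‖ ^ 2 : ℝ) : ℂ) := by
        rw [Complex.mul_conj, Complex.normSq_eq_norm_sq]
      calc _ = (((-(2 * Real.pi) ^ 2 * ‖x‖ ^ 2 : ℝ)) : ℂ) *
            ((ft hf : E n → ℂ) x * (starRingEnd ℂ) ((ft hf : E n → ℂ) x)) := by ring
        _ = _ := by rw [h3]; push_cast; ring
    rw [inner_ft] at e
    have e2 : ∫ x, F x * f x =
        ∫ x : E n, (-(2 * Real.pi) ^ 2 * ‖x‖ ^ 2) * ‖(ft hf : E n → ℂ) x‖ ^ 2 := by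
      exact_mod_cast e
    rw [e2]
    apply integral_nonpos
    intro x
    have : 0 ≤ (2 * Real.pi) ^ 2 * ‖x‖ ^ 2 * ‖(ft hf : E n → ℂ) x‖ ^ 2 := by positivity
    simp only [Pi.zero_apply]
    linarith

end NLSn
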